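import Pool.Agent.Helper72.NI.Cong
import Pool.Agent.Helper72.NI.Emb

/-!
# A place of good reduction
-/

set_option autoImplicit false

namespace Pool.Agent.Helper88.NI

open MvPolynomial
open Pool.Agent.Helper72.NI

section

variable {T : Type} [Field T] {Γ : Type} [LinearOrderedCommGroupWithZero Γ] {v : Valuation T Γ}

theorem exists_red {k : Subfield T} (hres : ∀ z, v z ≤ 1 → ∃ c ∈ k, v (z - c) < 1) :
    ∃ r : T → T, (∀ z, r z ∈ k) ∧ r 0 = 0 ∧ ∀ z, v z ≤ 1 → v (z - r z) < 1 := by
  classical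
  have h1 : ∀ z : T, ∃ c, c ∈ k ∧ (z = 0 → c = 0) ∧ (v z ≤ 1 → v (z - c) < 1) := by
    intro z
    by_cases hz : z = 0
    · refine ⟨0, zero_mem k, fun _ => rfl, fun _ => ?_⟩
      rw [hz, sub_zero, map_zero]
      exact zero_lt_one
    · by_cases hv : v z ≤ 1
      · obtain ⟨c, hc, hc1⟩ := hres z hv
        exact ⟨c, hc, fun h => absurd h hz, fun _ => hc1⟩
      · exact ⟨0, zero_mem k, fun _ => rfl, fun h => absurd h hv⟩
  choose r hr using h1
  exact ⟨r, fun z => (hr z).1, (hr 0).2.1 rfl, fun z hz => (hr z).2.2 hz⟩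

/-- Coefficientwise reduction. -/
noncomputable def redP {σ : Type} (r : T → T) (P : MvPolynomial σ T) : MvPolynomial σ T :=
  ∑ m ∈ P.support, monomial m (r (P.coeff m))

omit v in
theorem coeff_redP {σ : Type} {r : T → T} (h0 : r 0 = 0) (P : MvPolynomial σ T) (m : σ →₀ ℕ) :
    (redP r P).coeff m = r (P.coeff m) := by
  classical
  unfold redP
  rw [coeff_sum]
  simp only [coeff_monomial]
  rw [Finset.sum_ite_eq' P.support m]
  split_ifs with h
  · rfl
  · rw [notMem_support_iff.1 h, h0]

theorem Cg.coeff_mul {σ : Type} {P Q P' Q' : MvPolynomial σ T}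
    (hP : ∀ m, Cg v (P.coeff m) (P'.coeff m)) (hQ : ∀ m, Cg v (Q.coeff m) (Q'.coeff m))
    (m : σ →₀ ℕ) : Cg v ((P * Q).coeff m) ((P' * Q').coeff m) := by
  classical
  rw [MvPolynomial.coeff_mul, MvPolynomial.coeff_mul]
  exact Cg.sum _ fun p _ => (hP _).mul (hQ _)

/-- A root of a polynomial with integral coefficients and leading coefficient of value one is
integral. -/
theorem val_root_le {p : Polynomial T} (hc : ∀ n, v (p.coeff n) ≤ 1) (hl : v p.leadingCoeff = 1)
    {a : T} (ha : p.eval a = 0) : v a ≤ 1 := by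
  by_contra hcon
  rw [not_le] at hcon
  have hpos : 0 < v a := lt_trans zero_lt_one hcon
  rw [Polynomial.eval_eq_sum_range, Finset.sum_range_succ] at ha
  have h1 : v (p.coeff p.natDegree * a ^ p.natDegree) = v a ^ p.natDegree := by
    rw [map_mul, map_pow]
    change v p.leadingCoeff * _ = _
    rw [hl, one_mul]
  have h2 : v (∑ n ∈ Finset.range p.natDegree, p.coeff n * a ^ n) < v a ^ p.natDegree := by
    refine Valuation.map_sum_lt v (pow_pos hpos _).ne' fun n hn => ?_
    rw [map_mul, map_pow]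
    calc v (p.coeff n) * v a ^ n ≤ 1 * v a ^ n := mul_le_mul_left (hc n) _
      _ = v a ^ n := one_mul _
      _ < v a ^ p.natDegree := pow_lt_pow_right₀ hcon (Finset.mem_range.1 hn)
  have h3 : p.coeff p.natDegree * a ^ p.natDegree =
      -∑ n ∈ Finset.range p.natDegree, p.coeff n * a ^ n := by
    linear_combination ha
  rw [h3, Valuation.map_neg] at h1
  exact h2.ne h1

end

section

variable {T : Type} [Field T] [IsAlgClosed T]

/-- The certificate. -/
theorem exists_cert {N d : ℕ} {f : Fin (N + 1) → MvPolynomial (Fin (N + 1)) T}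
    (hf : Endo ⊤ d f) : ∃ (M : ℕ) (B : Fin (N + 1) → Fin (N + 1) → MvPolynomial (Fin (N + 1)) T),
      ∀ l, X l ^ M = ∑ i, B l i * f i := by
  classical
  let I : Ideal (MvPolynomial (Fin (N + 1)) T) := Ideal.span (Set.range f)
  have h1 : ∀ l, ∃ M : ℕ, (X l : MvPolynomial (Fin (N + 1)) T) ^ M ∈ I := by
    intro l
    have h2 : (X l : MvPolynomial (Fin (N + 1)) T) ∈ vanishingIdeal T (zeroLocus T I) := by
      rw [mem_vanishingIdeal_iff]
      intro x hx
      have h3 : x = 0 := by
        refine hf.nz x fun i => ?_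
        have := hx (f i) (Ideal.subset_span ⟨i, rfl⟩)
        simpa using this
      rw [h3]
      simp
    rw [vanishingIdeal_zeroLocus_eq_radical] at h2
    exact h2
  choose M hM using h1
  have h4 : ∀ l, (X l : MvPolynomial (Fin (N + 1)) T) ^ (∑ j, M j) ∈ I := by
    intro l
    have h5 : ∑ j, M j = M l + ∑ j ∈ Finset.univ.erase l, M j := by
      rw [Finset.add_sum_erase Finset.univ M (Finset.mem_univ l)]
    rw [h5, pow_add]
    exact I.mul_mem_right _ (hM l)
  have h6 : ∀ l, ∃ B : Fin (N + 1) → MvPolynomial (Fin (N + 1)) T,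
      ∑ i, B i * f i = X l ^ (∑ j, M j) := fun l =>
    (Ideal.mem_span_range_iff_exists_fun (R := MvPolynomial (Fin (N + 1)) T) (v := f)).1 (h4 l)
  choose B hB using h6
  exact ⟨_, B, fun l => (hB l).symm⟩

end

/-- A place of good reduction. -/
theorem exists_good_place {T : Type} [Field T] [IsAlgClosed T] [CharZero T] {k : Subfield T}
    [IsAlgClosed k] {t : T} (ht : t ∉ k) (hT : ∀ z : T, z ∈ acl (insert t (k : Set T)))
    {N d : ℕ} {f : Fin (N + 1) → MvPolynomial (Fin (N + 1)) T} (hf : Endo ⊤ d f) :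
    ∃ (O : ValuationSubring T) (φ : Fin (N + 1) → MvPolynomial (Fin (N + 1)) T),
      (∀ b ∈ k, O.valuation b ≤ 1) ∧
      (∀ z, O.valuation z ≤ 1 → ∃ c ∈ k, O.valuation (z - c) < 1) ∧ Endo k d φ ∧
      (∀ i m, O.valuation ((f i).coeff m) ≤ 1) ∧
      ∀ i m, O.valuation ((f i).coeff m - (φ i).coeff m) < 1 := by
  classical
  obtain ⟨M, B, hB⟩ := exists_cert hf
  -- the finite set of the coefficients
  let A : Finset T := (Finset.univ.biUnion fun i => (f i).support.image (f i).coeff) ∪
    (Finset.univ.biUnion fun l => Finset.univ.biUnion fun i => (B l i).support.image (B l i).coeff)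
  have hAf : ∀ i m, (f i).coeff m ≠ 0 → (f i).coeff m ∈ A := fun i m h =>
    Finset.mem_union_left _ (Finset.mem_biUnion.2 ⟨i, Finset.mem_univ _,
      Finset.mem_image.2 ⟨m, mem_support_iff.2 h, rfl⟩⟩)
  have hAB : ∀ l i m, (B l i).coeff m ≠ 0 → (B l i).coeff m ∈ A := fun l i m h =>
    Finset.mem_union_right _ (Finset.mem_biUnion.2 ⟨l, Finset.mem_univ _,
      Finset.mem_biUnion.2 ⟨i, Finset.mem_univ _,
        Finset.mem_image.2 ⟨m, mem_support_iff.2 h, rfl⟩⟩⟩)
  -- relations
  have hrel : ∀ a : T, ∃ p : Polynomial (Polynomial k), p ≠ 0 ∧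
      (p.map (Polynomial.aeval t : Polynomial k →ₐ[k] T).toRingHom).eval a = 0 := fun a =>
    rel_iff.1 (exists_rel (hT a))
  choose p hp0 hp using hrel
  let Q : Polynomial k := ∏ a ∈ A, (p a).leadingCoeff
  have hQ : Q ≠ 0 := Finset.prod_ne_zero_iff.2 fun a _ => Polynomial.leadingCoeff_ne_zero.2 (hp0 a)
  have : Infinite k := IsAlgClosed.instInfinite
  obtain ⟨τ, hτ⟩ : ∃ τ : k, Q.eval τ ≠ 0 := by
    by_contra hcon
    push Not at hcon
    exact hQ (Polynomial.funext fun x => by rw [hcon x, Polynomial.eval_zero])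
  have hτA : ∀ a ∈ A, (p a).leadingCoeff.eval τ ≠ 0 := by
    intro a ha h
    apply hτ
    change Polynomial.eval τ (∏ a ∈ A, (p a).leadingCoeff) = 0
    rw [Polynomial.eval_prod]
    exact Finset.prod_eq_zero ha h
  -- the valuation
  have hw : t - (τ : T) ∉ k := fun h => ht (by
    have := add_mem h τ.2
    rwa [sub_add_cancel] at this)
  obtain ⟨O, hOk, hOw⟩ := exists_valuation k acl_eq_self hw
  have hw0 : t - (τ : T) ≠ 0 := fun h => hw (by rw [h]; exact zero_mem k)
  have hwT : t - (τ : T) ∈ acl (insert t (k : Set T)) := hT _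
  have hres : ∀ z, O.valuation z ≤ 1 → ∃ c ∈ k, O.valuation (z - c) < 1 := fun z hz =>
    exists_residue hOk hwT hw0 hOw (hT z) hz
  have ht1 : O.valuation t ≤ 1 := by
    have h1 : t = (t - (τ : T)) + τ := by ring
    rw [h1]
    exact (Valuation.map_add _ _ _).trans (max_le hOw.le (hOk _ τ.2))
  have htτ : Cg O.valuation t (τ : T) := ⟨ht1, hOk _ τ.2, hOw⟩
  have hev : ∀ q : Polynomial k, Cg O.valuation (Polynomial.aeval t q)
      (Polynomial.aeval (τ : T) q) := by
    intro q
    rw [Polynomial.aeval_eq_sum_range, Polynomial.aeval_eq_sum_range]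
    refine Cg.sum _ fun n _ => ?_
    rw [Algebra.smul_def, Algebra.smul_def]
    exact (Cg.refl (hOk _ (q.coeff n).2)).mul (htτ.pow n)
  have hevτ : ∀ q : Polynomial k, Polynomial.aeval (τ : T) q = ((q.eval τ : k) : T) := by
    intro q
    exact Polynomial.aeval_algebraMap_apply_eq_algebraMap_eval (A := T) τ q
  have hint : ∀ a ∈ A, O.valuation a ≤ 1 := by
    intro a ha
    have hlead : O.valuation (Polynomial.aeval t (p a).leadingCoeff) = 1 := by
      refine (hev _).val ?_
      rw [hevτ]
      exact val_one_of_mem hOk (SetLike.coe_mem _) (fun h => hτA a ha (Subtype.ext h))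
    have hl0 : (Polynomial.aeval t : Polynomial k →ₐ[k] T).toRingHom (p a).leadingCoeff ≠ 0 := by
      intro h
      have h1 : Polynomial.aeval t (p a).leadingCoeff = 0 := h
      rw [h1, map_zero] at hlead
      exact zero_ne_one hlead
    refine val_root_le (p := (p a).map (Polynomial.aeval t : Polynomial k →ₐ[k] T).toRingHom)
      (fun n => ?_) ?_ (hp a)
    · rw [Polynomial.coeff_map]
      exact (hev _).left
    · rw [Polynomial.leadingCoeff_map_of_leadingCoeff_ne_zero _ hl0]
      exact hlead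
  have hintf : ∀ i m, O.valuation ((f i).coeff m) ≤ 1 := by
    intro i m
    by_cases h : (f i).coeff m = 0
    · rw [h, map_zero]; exact zero_le
    · exact hint _ (hAf i m h)
  have hintB : ∀ l i m, O.valuation ((B l i).coeff m) ≤ 1 := by
    intro l i m
    by_cases h : (B l i).coeff m = 0
    · rw [h, map_zero]; exact zero_le
    · exact hint _ (hAB l i m h)
  -- the reduction
  obtain ⟨r, hrk, hr0, hr⟩ := exists_red hres
  have hcgf : ∀ i m, Cg O.valuation ((f i).coeff m) ((redP r (f i)).coeff m) := fun i m => by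
    rw [coeff_redP hr0]
    exact ⟨hintf i m, hOk _ (hrk _), hr _ (hintf i m)⟩
  have hcgB : ∀ l i m, Cg O.valuation ((B l i).coeff m) ((redP r (B l i)).coeff m) :=
    fun l i m => by
      rw [coeff_redP hr0]
      exact ⟨hintB l i m, hOk _ (hrk _), hr _ (hintB l i m)⟩
  refine ⟨O, fun i => redP r (f i), hOk, hres, ⟨hf.two_le, fun i => ?_, fun i m => ?_,
    fun x hx => ?_⟩, hintf, fun i m => (hcgf i m).lt⟩
  · intro m hm
    rw [coeff_redP hr0] at hm
    refine hf.hom i (fun h => hm ?_)
    rw [h, hr0]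
  · rw [coeff_redP hr0]
    exact hrk _
  · have hid : ∀ l, (X l : MvPolynomial (Fin (N + 1)) T) ^ M =
        ∑ i, redP r (B l i) * redP r (f i) := by
      intro l
      ext m
      have h1 : Cg O.valuation ((X l ^ M : MvPolynomial (Fin (N + 1)) T).coeff m)
          ((∑ i, redP r (B l i) * redP r (f i)).coeff m) := by
        rw [hB l, coeff_sum, coeff_sum]
        exact Cg.sum _ fun i _ => Cg.coeff_mul (hcgB l i) (hcgf i) m
      refine h1.eq (Ω := k) hOk ?_ ?_
      · rw [coeff_X_pow]
        split_ifs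
        · exact one_mem k
        · exact zero_mem k
      · rw [coeff_sum]
        refine Subfield.sum_mem k fun i _ => ?_
        rw [MvPolynomial.coeff_mul]
        refine Subfield.sum_mem k fun q _ => mul_mem ?_ ?_
        · rw [coeff_redP hr0]; exact hrk _
        · rw [coeff_redP hr0]; exact hrk _
    funext l
    have h2 := congrArg (eval x) (hid l)
    rw [map_pow, eval_X, map_sum] at h2
    have h3 : ∑ i, eval x (redP r (B l i) * redP r (f i)) = 0 := by
      refine Finset.sum_eq_zero fun i _ => ?_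
      rw [map_mul, hx i, mul_zero]
    rw [h3] at h2
    refine (pow_eq_zero_iff (n := M) ?_).1 h2
    intro hM0
    rw [hM0, pow_zero] at h2
    exact one_ne_zero h2

end Pool.Agent.Helper88.NI
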