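import Pool.Agent.Helper72.NI.Tools
import Pool.Agent.Helper72.NI.RedConst

/-!
# Roots close to a root of the reduction
-/

set_option autoImplicit false

namespace Pool.Agent.Helper88.NI

open Pool.Agent.Helper72.NI

section

variable {E : Type} [Field E] {Γ : Type} [LinearOrderedCommGroupWithZero Γ] {v : Valuation E Γ}

theorem coeff_mul_le {P Q : Polynomial E} {a b : Γ} (hP : ∀ n, v (P.coeff n) ≤ a)
    (hQ : ∀ n, v (Q.coeff n) ≤ b) (n : ℕ) : v ((P * Q).coeff n) ≤ a * b := by
  rw [Polynomial.coeff_mul]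
  refine Valuation.map_sum_le v fun p _ => ?_
  rw [map_mul]
  exact mul_le_mul' (hP _) (hQ _)

theorem coeff_one_le (n : ℕ) : v ((1 : Polynomial E).coeff n) ≤ 1 := by
  rw [Polynomial.coeff_one]
  split_ifs
  · rw [map_one]
  · rw [map_zero]; exact zero_le

theorem coeff_pow_le {Q : Polynomial E} (hQ : ∀ n, v (Q.coeff n) ≤ 1) (m n : ℕ) :
    v ((Q ^ m).coeff n) ≤ 1 := by
  induction m generalizing n with
  | zero => rw [pow_zero]; exact coeff_one_le n
  | succ m ih =>
    rw [pow_succ]
    have := coeff_mul_le ih hQ n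
    rwa [one_mul] at this

theorem coeff_comp_le {P Q : Polynomial E} {a : Γ} (hP : ∀ n, v (P.coeff n) ≤ a)
    (hQ : ∀ n, v (Q.coeff n) ≤ 1) (n : ℕ) : v ((P.comp Q).coeff n) ≤ a := by
  rw [Polynomial.comp_eq_sum_left, Polynomial.sum_def, Polynomial.finsetSum_coeff]
  refine Valuation.map_sum_le v fun m _ => ?_
  rw [Polynomial.coeff_C_mul, map_mul]
  calc v (P.coeff m) * v ((Q ^ m).coeff n) ≤ a * 1 := mul_le_mul' (hP m) (coeff_pow_le hQ m n)
    _ = a := mul_one a

theorem coeff_lin_le {c : E} {a : Γ} (ha : 1 ≤ a) (hc : v c ≤ a) (n : ℕ) :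
    v ((Polynomial.X - Polynomial.C c).coeff n) ≤ a := by
  rw [Polynomial.coeff_sub, Polynomial.coeff_X, Polynomial.coeff_C]
  refine (Valuation.map_sub v _ _).trans (max_le ?_ ?_)
  · split_ifs
    · rw [map_one]; exact ha
    · rw [map_zero]; exact zero_le
  · split_ifs
    · exact hc
    · rw [map_zero]; exact zero_le

theorem coeff_prod_le (s : Multiset E) (hs : ∀ r ∈ s, 1 ≤ v r) (n : ℕ) :
    v (((s.map fun a => Polynomial.X - Polynomial.C a).prod).coeff n) ≤
      v (((s.map fun a => Polynomial.X - Polynomial.C a).prod).eval 0) := by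
  induction s using Multiset.induction_on generalizing n with
  | empty =>
    rw [Multiset.map_zero, Multiset.prod_zero, Polynomial.eval_one, map_one]
    exact coeff_one_le n
  | cons a s ih =>
    have ih' := ih fun r hr => hs r (Multiset.mem_cons_of_mem hr)
    rw [Multiset.map_cons, Multiset.prod_cons, Polynomial.eval_mul, map_mul]
    have h1 : v (Polynomial.eval 0 (Polynomial.X - Polynomial.C a)) = v a := by
      rw [Polynomial.eval_sub, Polynomial.eval_X, Polynomial.eval_C, zero_sub, Valuation.map_neg]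
    rw [h1]
    exact coeff_mul_le (coeff_lin_le (hs a (Multiset.mem_cons_self a s)) le_rfl) ih' n

/-- A root close to a root of the reduction. -/
theorem exists_root_near [IsAlgClosed E] {h h' : Polynomial E}
    (hcg : ∀ n, Cg v (h.coeff n) (h'.coeff n)) (hne : ∃ n, v (h'.coeff n) = 1) {l₀ : E}
    (hl₀ : v l₀ ≤ 1) (hroot : h'.eval l₀ = 0) : ∃ l₁, v (l₁ - l₀) < 1 ∧ h.eval l₁ = 0 := by
  classical
  by_contra hcon
  push Not at hcon
  obtain ⟨n₀, hn₀⟩ := hne
  have hn₁ : v (h.coeff n₀) = 1 := (hcg n₀).val hn₀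
  -- the value at the approximate root is small
  have hsmall : v (h.eval l₀) < 1 := by
    obtain ⟨D, hD1, hD2⟩ : ∃ D, h.natDegree < D ∧ h'.natDegree < D :=
      ⟨max h.natDegree h'.natDegree + 1, by omega, by omega⟩
    have h1 : Cg v (h.eval l₀) (h'.eval l₀) := by
      rw [Polynomial.eval_eq_sum_range' hD1, Polynomial.eval_eq_sum_range' hD2]
      exact Cg.sum _ fun n _ => (hcg n).mul ((Cg.refl hl₀).pow n)
    have h2 := h1.lt
    rwa [hroot, sub_zero] at h2
  -- the shifted polynomial
  obtain ⟨g, hg⟩ : ∃ g, g = h.comp (Polynomial.X + Polynomial.C l₀) := ⟨_, rfl⟩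
  have hgh : g.comp (Polynomial.X - Polynomial.C l₀) = h := by
    rw [hg, Polynomial.comp_assoc]
    simp
  have hg0 : g.eval 0 = h.eval l₀ := by
    rw [hg, Polynomial.eval_comp]
    simp
  have hroots : ∀ r ∈ g.roots, 1 ≤ v r := by
    intro r hr
    have h1 : g.eval r = 0 := (Polynomial.mem_roots'.1 hr).2
    by_contra hlt
    rw [not_le] at hlt
    refine hcon (r + l₀) ?_ ?_
    · rw [add_sub_cancel_right]; exact hlt
    · rw [hg, Polynomial.eval_comp] at h1
      simpa using h1
  have hfac := (IsAlgClosed.splits g).eq_prod_roots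
  have hle : ∀ n, v (g.coeff n) ≤ v (g.eval 0) := by
    intro n
    have h1 := coeff_prod_le (v := v) g.roots hroots n
    conv_lhs => rw [hfac]
    conv_rhs => rw [hfac]
    rw [Polynomial.coeff_C_mul, Polynomial.eval_mul, Polynomial.eval_C, map_mul, map_mul]
    exact mul_le_mul' le_rfl h1
  have hfin : v (h.coeff n₀) ≤ v (g.eval 0) := by
    conv_lhs => rw [← hgh]
    exact coeff_comp_le hle (coeff_lin_le le_rfl hl₀) n₀
  rw [hn₁, hg0] at hfin
  exact absurd hsmall (not_lt.2 hfin)

end

end Pool.Agent.Helper88.NI
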